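import Pool.Agent.W402.HI.Defs

/-!
Task HI-D1: Harnack's inequality for zero-free functions on a disc.
-/

set_option autoImplicit false

open Filter Topology MeasureTheory Metric

namespace Pool.Agent.W778.HI

open Pool.Agent.W402.HI

/-- a holomorphic logarithm on a disc about zero -/
theorem exists_log_ball (F : ℂ → ℂ) (R : ℝ) (hR : 0 < R) (hF : DifferentiableOn ℂ F (ball 0 R))
    (h0 : ∀ z ∈ ball (0 : ℂ) R, F z ≠ 0) :
    ∃ g : ℂ → ℂ, DifferentiableOn ℂ g (ball 0 R) ∧ ∀ z ∈ ball (0 : ℂ) R, Complex.exp (g z) = F z := by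
  have hd : DifferentiableOn ℂ (fun z => deriv F z / F z) (ball 0 R) := by
    apply DifferentiableOn.div _ hF h0
    exact hF.deriv isOpen_ball
  obtain ⟨g, hg0, hg⟩ := (hd.isExactOn_ball).with_val_at 0 (Complex.log (F 0))
  have hc : (0 : ℂ) ∈ ball (0 : ℂ) R := mem_ball_self hR
  refine ⟨g, fun z hz => (hg z hz).differentiableAt.differentiableWithinAt, ?_⟩
  -- the quotient is constant
  have hderiv : ∀ z ∈ ball (0 : ℂ) R, HasDerivAt (fun z => F z * Complex.exp (- g z)) 0 z := by
    intro z hz
    have hFz : HasDerivAt F (deriv F z) z :=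
      (hF.differentiableAt (isOpen_ball.mem_nhds hz)).hasDerivAt
    have h1 := hFz.mul ((hg z hz).neg.cexp)
    have h2 : deriv F z * Complex.exp (-g z) + F z * (Complex.exp (-g z) * -(deriv F z / F z)) = 0 := by
      have := h0 z hz
      field_simp
      ring
    rw [← h2]
    exact h1
  have hconst : ∀ z ∈ ball (0 : ℂ) R,
      F z * Complex.exp (- g z) = F 0 * Complex.exp (- g 0) := by
    intro z hz
    refine (convex_ball (0 : ℂ) R).is_const_of_fderivWithin_eq_zero (𝕜 := ℂ)
      (f := fun z => F z * Complex.exp (- g z)) ?_ ?_ hz hc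
    · intro w hw
      exact (hderiv w hw).differentiableAt.differentiableWithinAt
    · intro w hw
      rw [fderivWithin_of_isOpen isOpen_ball hw]
      have := (hderiv w hw).hasFDerivAt.fderiv
      rw [this]
      ext
      simp
  intro z hz
  have h1 := hconst z hz
  rw [hg0, Complex.exp_neg, Complex.exp_neg, Complex.exp_log (h0 0 hc),
    mul_inv_cancel₀ (h0 0 hc)] at h1
  have h2 : Complex.exp (g z) ≠ 0 := Complex.exp_ne_zero _
  field_simp at h1
  exact h1.symm

theorem main_D1 : P_D1 := by
  intro f a R M hR hf h0 hM z hz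
  set F : ℂ → ℂ := fun w => f (a + w) with hFdef
  have hmap : ∀ w ∈ ball (0 : ℂ) R, a + w ∈ ball a R := by
    intro w hw
    rw [mem_ball, dist_eq_norm] at hw ⊢
    simpa using hw
  have hF : DifferentiableOn ℂ F (ball 0 R) := by
    intro w hw
    have h1 := hf.differentiableAt (isOpen_ball.mem_nhds (hmap w hw))
    exact (h1.comp w (by fun_prop)).differentiableWithinAt
  obtain ⟨g, hg, hexp⟩ := exists_log_ball F R hR hF (fun w hw => h0 _ (hmap w hw))
  have hre : ∀ w ∈ ball (0 : ℂ) R, (g w).re = Real.log ‖F w‖ := by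
    intro w hw
    rw [← hexp w hw, Complex.norm_exp, Real.log_exp]
  have hc : (0 : ℂ) ∈ ball (0 : ℂ) R := mem_ball_self hR
  have hreM : ∀ w ∈ ball (0 : ℂ) R, (g w).re ≤ M := by
    intro w hw
    have h1 := hM _ (hmap w hw)
    have h2 := h0 _ (hmap w hw)
    rw [hre w hw]
    have h3 : Real.log ‖F w‖ ≤ Real.log (Real.exp M) :=
      Real.log_le_log (norm_pos_iff.2 h2) h1
    rwa [Real.log_exp] at h3
  set w : ℂ := z - a with hw
  have hwR : ‖w‖ ≤ R / 2 := by
    rw [mem_closedBall, dist_eq_norm] at hz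
    exact hz
  have hwb : w ∈ ball (0 : ℂ) R := by
    rw [mem_ball_zero_iff]; linarith
  have hFw : F w = f z := by simp [hFdef, hw]
  have hF0 : F 0 = f a := by simp [hFdef]
  have key : ∀ ε : ℝ, 0 < ε → M - (g w).re ≤ 3 * (M - (g 0).re) + 2 * ε := by
    intro ε hε
    have hm : 0 < M - (g 0).re + ε := by linarith [hreM 0 hc]
    have h1 := Complex.borelCaratheodory_zero (f := fun w => g w - g 0) hm
      (hg.sub_const _) (by
        intro x hx
        simp only [Set.mem_ofPred_eq, Complex.sub_re]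
        linarith [hreM x hx]) hR hwb (by simp)
    have h2 : 2 * (M - (g 0).re + ε) * ‖w‖ / (R - ‖w‖) ≤ 2 * (M - (g 0).re + ε) := by
      rw [div_le_iff₀ (by linarith)]
      apply mul_le_mul_of_nonneg_left _ (by linarith)
      linarith
    have h3 : -(g w - g 0).re ≤ ‖g w - g 0‖ := by
      have := Complex.abs_re_le_norm (g w - g 0)
      linarith [neg_le_abs (g w - g 0).re]
    simp only [Complex.sub_re] at h3
    linarith
  have h4 : M - (g w).re ≤ 3 * (M - (g 0).re) := by
    apply le_of_forall_pos_le_add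
    intro ε hε
    have := key (ε / 2) (by linarith)
    linarith
  rw [hre w hwb, hre 0 hc, hFw, hF0] at h4
  have h5 : 0 ≤ M - Real.log ‖f a‖ := by
    have := hreM 0 hc
    rw [hre 0 hc, hF0] at this
    linarith
  linarith

end Pool.Agent.W778.HI

namespace Pool.Agent.W778.HI.D1

theorem main : Pool.Agent.W402.HI.P_D1 := Pool.Agent.W778.HI.main_D1

end Pool.Agent.W778.HI.D1
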