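import Pool.Agent.W402.HI.Defs

/-!
Task HI-D2: Harnack chain in a truncated sector.
-/

set_option autoImplicit false

open Filter Topology MeasureTheory Metric

namespace Pool.Agent.W778.HI.D2

open Pool.Agent.W402.HI

theorem ball_center (θ ρ r s : ℝ) (_hθ : 0 < θ) (hθ1 : θ ≤ 1) (hρ : 0 < ρ) (hs : ρ ≤ s)
    (hsr : s ≤ r) : ball ((s : ℂ) * Complex.I) (s / 2) ⊆ Sect θ ρ r := by
  intro z hz
  rw [mem_ball, dist_eq_norm] at hz
  have hs0 : 0 < s := by linarith
  have h1 := Complex.abs_re_le_norm (z - (s : ℂ) * Complex.I)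
  have h2 := Complex.abs_im_le_norm (z - (s : ℂ) * Complex.I)
  simp only [Complex.sub_re, Complex.sub_im, Complex.mul_re, Complex.mul_im, Complex.ofReal_re,
    Complex.ofReal_im, Complex.I_re, Complex.I_im, mul_zero, mul_one, sub_zero, zero_mul,
    add_zero, sub_self] at h1 h2
  have h3 : s / 2 < z.im := by
    have := (abs_lt.1 (lt_of_le_of_lt h2 hz)).1
    linarith
  have h4 : |z.re| < s / 2 := lt_of_le_of_lt h1 hz
  have h5 : z.im ≤ ‖z‖ := (le_abs_self _).trans (Complex.abs_im_le_norm z)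
  have h6 : ‖z‖ ≤ ‖z - (s : ℂ) * Complex.I‖ + ‖(s : ℂ) * Complex.I‖ := by
    have := norm_add_le (z - (s : ℂ) * Complex.I) ((s : ℂ) * Complex.I)
    simpa using this
  have h7 : ‖(s : ℂ) * Complex.I‖ = s := by
    rw [norm_mul, Complex.norm_I, mul_one, Complex.norm_real, Real.norm_of_nonneg hs0.le]
  refine ⟨?_, ?_, ?_⟩
  · have : θ / 4 * |z.re| ≤ 1 / 4 * |z.re| := by
      apply mul_le_mul_of_nonneg_right _ (abs_nonneg _)
      linarith
    linarith
  · have : θ * ρ ≤ 1 * ρ := mul_le_mul_of_nonneg_right hθ1 hρ.le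
    linarith
  · linarith

theorem ball_side (θ ρ r : ℝ) (ζ : ℂ) (hθ : 0 < θ) (hθ1 : θ ≤ 1) (hρ : 0 < ρ) (hr : ρ ≤ r)
    (h1 : θ * |ζ.re| ≤ ζ.im) (h2 : θ * ρ / 2 ≤ ζ.im) (h3 : ‖ζ‖ ≤ 4 / 3 * ρ) :
    ball ζ (θ * ρ / 8) ⊆ Sect θ ρ r := by
  intro z hz
  rw [mem_ball, dist_eq_norm] at hz
  have hθρ : 0 < θ * ρ := mul_pos hθ hρ
  have hθρ1 : θ * ρ ≤ ρ := by nlinarith
  have e1 := Complex.abs_re_le_norm (z - ζ)
  have e2 := Complex.abs_im_le_norm (z - ζ)
  rw [Complex.sub_re] at e1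
  rw [Complex.sub_im] at e2
  have e3 : ζ.im - θ * ρ / 8 < z.im := by
    have := (abs_lt.1 (lt_of_le_of_lt e2 hz)).1
    linarith
  have e4 : |z.re| < |ζ.re| + θ * ρ / 8 := by
    have h4 : |z.re| ≤ |z.re - ζ.re| + |ζ.re| := by
      have := abs_add_le (z.re - ζ.re) ζ.re
      simpa using this
    linarith [lt_of_le_of_lt e1 hz]
  have e5 : z.im ≤ ‖z‖ := (le_abs_self _).trans (Complex.abs_im_le_norm z)
  have e6 : ‖z‖ ≤ ‖z - ζ‖ + ‖ζ‖ := by
    have := norm_add_le (z - ζ) ζ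
    simpa using this
  refine ⟨?_, ?_, ?_⟩
  · have h5 : θ / 4 * |z.re| ≤ θ / 4 * (|ζ.re| + θ * ρ / 8) :=
      mul_le_mul_of_nonneg_left e4.le (by positivity)
    have h6 : θ / 4 * (θ * ρ / 8) ≤ 1 / 4 * (θ * ρ / 8) :=
      mul_le_mul_of_nonneg_right (by linarith) (by positivity)
    nlinarith
  · linarith
  · linarith

theorem main (h : P_D1) : P_D2 := by
  intro θ hθ hθ1
  obtain ⟨N, hN⟩ := exists_nat_ge (48 / θ)
  have hN0 : (0 : ℝ) < N := lt_of_lt_of_le (by positivity) hN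
  refine ⟨2 * 9 ^ N, by positivity, ?_⟩
  intro f r ρ M hρ hρr hM hf h0 hfM hbase z hz hzθ
  have hr : 0 < r := lt_of_lt_of_le hρ hρr
  set u : ℂ → ℝ := fun z => M - Real.log ‖f z‖ with hu
  have hu0 : ∀ z ∈ Sect θ ρ r, 0 ≤ u z := by
    intro z hz
    have h1 := hfM z hz
    have h2 := h0 z hz
    have h3 : Real.log ‖f z‖ ≤ Real.log (Real.exp M) :=
      Real.log_le_log (norm_pos_iff.2 h2) h1
    rw [Real.log_exp] at h3
    simp only [hu]; linarith
  have har : ∀ (a : ℂ) (R : ℝ), 0 < R → ball a R ⊆ Sect θ ρ r → ∀ w : ℂ, ‖w - a‖ ≤ R / 2 →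
      u w ≤ 9 * u a := by
    intro a R hR hsub w hw
    exact h f a R M hR (hf.mono hsub) (fun z hz => h0 z (hsub hz)) (fun z hz => hfM z (hsub hz)) w
      (by rw [mem_closedBall, dist_eq_norm]; exact hw)
  -- the central chain
  have hbr : (r : ℂ) * Complex.I ∈ Sect θ ρ r :=
    ball_center θ ρ r r hθ hθ1 hρ hρr le_rfl (mem_ball_self (by positivity))
  have hchain : ∀ n : ℕ, ρ ≤ (3 / 4 : ℝ) ^ n * r →
      u ((((3 / 4 : ℝ) ^ n * r : ℝ) : ℂ) * Complex.I) ≤ 9 ^ n * (2 * M) := by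
    intro n
    induction n with
    | zero =>
      intro _
      simp only [pow_zero, one_mul, hu]
      have h1 : -M ≤ Real.log ‖f ((r : ℂ) * Complex.I)‖ := by
        rw [Real.le_log_iff_exp_le (norm_pos_iff.2 (h0 _ hbr))]
        exact hbase
      linarith
    | succ n ih =>
      intro hn
      set s : ℝ := (3 / 4 : ℝ) ^ n * r with hs
      have hs1 : (3 / 4 : ℝ) ^ (n + 1) * r = 3 / 4 * s := by rw [hs]; ring
      rw [hs1] at hn ⊢
      have hs0 : 0 < s := by rw [hs]; positivity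
      have hsr : s ≤ r := by
        rw [hs]
        have : (3 / 4 : ℝ) ^ n ≤ 1 := pow_le_one₀ (by norm_num) (by norm_num)
        nlinarith
      have h1 := ih (by linarith)
      have h2 := har ((s : ℂ) * Complex.I) (s / 2) (by positivity)
        (ball_center θ ρ r s hθ hθ1 hρ (by linarith) hsr) (((3 / 4 * s : ℝ) : ℂ) * Complex.I) (by
          have e : ((3 / 4 * s : ℝ) : ℂ) * Complex.I - (s : ℂ) * Complex.I
              = ((-(s / 4) : ℝ) : ℂ) * Complex.I := by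
            push_cast; ring
          rw [e, norm_mul, Complex.norm_I, mul_one, Complex.norm_real, norm_neg,
            Real.norm_of_nonneg (by positivity)]
          linarith)
      calc u (((3 / 4 * s : ℝ) : ℂ) * Complex.I) ≤ 9 * u ((s : ℂ) * Complex.I) := h2
        _ ≤ 9 * (9 ^ n * (2 * M)) := by linarith
        _ = 9 ^ (n + 1) * (2 * M) := by ring
  obtain ⟨n, hn1, hn2⟩ := exists_nat_pow_near (x := r / ρ) (y := (4 / 3 : ℝ))
    ((one_le_div hρ).2 hρr) (by norm_num)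
  set s : ℝ := (3 / 4 : ℝ) ^ n * r with hs
  have hpow : (3 / 4 : ℝ) ^ n * (4 / 3 : ℝ) ^ n = 1 := by
    rw [← mul_pow]; norm_num
  have hρs : ρ ≤ s := by
    rw [le_div_iff₀ hρ] at hn1
    have h34 : (0 : ℝ) < (3 / 4 : ℝ) ^ n := by positivity
    calc ρ = (3 / 4 : ℝ) ^ n * ((4 / 3 : ℝ) ^ n * ρ) := by rw [← mul_assoc, hpow, one_mul]
      _ ≤ (3 / 4 : ℝ) ^ n * r := mul_le_mul_of_nonneg_left hn1 h34.le
  have hsρ : s ≤ 4 / 3 * ρ := by
    rw [div_lt_iff₀ hρ, pow_succ] at hn2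
    have h34 : (0 : ℝ) < (3 / 4 : ℝ) ^ n := by positivity
    calc s ≤ (3 / 4 : ℝ) ^ n * ((4 / 3 : ℝ) ^ n * (4 / 3) * ρ) :=
          mul_le_mul_of_nonneg_left hn2.le h34.le
      _ = ((3 / 4 : ℝ) ^ n * (4 / 3 : ℝ) ^ n) * (4 / 3 * ρ) := by ring
      _ = 4 / 3 * ρ := by rw [hpow, one_mul]
  have hs0 : 0 < s := by linarith
  have hus : u ((s : ℂ) * Complex.I) ≤ (r / ρ) ^ 8 * (2 * M) := by
    refine (hchain n hρs).trans ?_
    apply mul_le_mul_of_nonneg_right _ (by positivity)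
    calc (9 : ℝ) ^ n ≤ ((4 / 3 : ℝ) ^ 8) ^ n := by
          apply pow_le_pow_left₀ (by norm_num)
          norm_num
      _ = ((4 / 3 : ℝ) ^ n) ^ 8 := by rw [← pow_mul, ← pow_mul, mul_comm]
      _ ≤ (r / ρ) ^ 8 := pow_le_pow_left₀ (by positivity) hn1 8
  -- the side chain
  have hzim0 : 0 ≤ z.im := le_trans (by positivity) hzθ
  have hzim : θ * ρ / 2 ≤ z.im := by
    have h1 : ρ ^ 2 = z.re ^ 2 + z.im ^ 2 := by
      rw [← hz, Complex.sq_norm, Complex.normSq_apply]; ring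
    have h2 : (θ * |z.re|) ^ 2 ≤ z.im ^ 2 := pow_le_pow_left₀ (by positivity) hzθ 2
    rw [mul_pow, sq_abs] at h2
    have h3 : θ ^ 2 ≤ 1 := pow_le_one₀ hθ.le hθ1
    apply le_of_sq_le_sq _ hzim0
    nlinarith [sq_nonneg z.im, mul_nonneg (sub_nonneg.2 h3) (sq_nonneg z.im)]
  have hzim1 : z.im ≤ ρ := by rw [← hz]; exact (le_abs_self _).trans (Complex.abs_im_le_norm z)
  set v : ℂ := z - (s : ℂ) * Complex.I with hv
  have hnormsI : ‖(s : ℂ) * Complex.I‖ = s := by
    rw [norm_mul, Complex.norm_I, mul_one, Complex.norm_real, Real.norm_of_nonneg hs0.le]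
  have hvn : ‖v‖ ≤ 3 * ρ := by
    have := norm_sub_le z ((s : ℂ) * Complex.I)
    rw [hz, hnormsI] at this
    linarith
  have hside : ∀ k : ℕ, k ≤ N →
      u ((s : ℂ) * Complex.I + ((k : ℝ) / N : ℝ) * v) ≤ 9 ^ k * u ((s : ℂ) * Complex.I) := by
    intro k
    induction k with
    | zero => intro _; simp
    | succ k ih =>
      intro hk
      have hk' : k ≤ N := by omega
      have h1 := ih hk'
      set t : ℝ := (k : ℝ) / N with ht
      have ht0 : 0 ≤ t := by positivity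
      have ht1 : t ≤ 1 := by
        rw [ht, div_le_one hN0]; exact_mod_cast hk'
      set ζ : ℂ := (s : ℂ) * Complex.I + (t : ℂ) * v with hζ
      have hζre : ζ.re = t * z.re := by
        simp [hζ, hv]
      have hζim : ζ.im = (1 - t) * s + t * z.im := by
        simp [hζ, hv]; ring
      have hζn : ‖ζ‖ ≤ 4 / 3 * ρ := by
        have e : ζ = ((1 - t : ℝ) : ℂ) * ((s : ℂ) * Complex.I) + (t : ℂ) * z := by
          rw [hζ, hv]; push_cast; ring
        rw [e]
        refine (norm_add_le _ _).trans ?_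
        rw [norm_mul ((1 - t : ℝ) : ℂ), norm_mul (t : ℂ), hnormsI, hz, Complex.norm_real,
          Complex.norm_real, Real.norm_of_nonneg (show (0 : ℝ) ≤ 1 - t by linarith),
          Real.norm_of_nonneg ht0]
        have : (1 - t) * s ≤ (1 - t) * (4 / 3 * ρ) :=
          mul_le_mul_of_nonneg_left hsρ (by linarith)
        nlinarith
      have hsub := ball_side θ ρ r ζ hθ hθ1 hρ hρr
        (by
          rw [hζre, hζim, abs_mul, abs_of_nonneg ht0]
          have : t * (θ * |z.re|) ≤ t * z.im := mul_le_mul_of_nonneg_left hzθ ht0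
          have h2 : 0 ≤ (1 - t) * s := mul_nonneg (by linarith) hs0.le
          nlinarith)
        (by
          rw [hζim]
          have h2 : θ * ρ / 2 ≤ s := by
            have : θ * ρ ≤ 1 * ρ := mul_le_mul_of_nonneg_right hθ1 hρ.le
            linarith
          have h3 : (1 - t) * (θ * ρ / 2) ≤ (1 - t) * s :=
            mul_le_mul_of_nonneg_left h2 (by linarith)
          have h4 : t * (θ * ρ / 2) ≤ t * z.im := mul_le_mul_of_nonneg_left hzim ht0
          nlinarith) hζn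
      have h2 := har ζ (θ * ρ / 8) (by positivity) hsub
        ((s : ℂ) * Complex.I + (((k + 1 : ℕ) : ℝ) / N : ℝ) * v) (by
          have e : (s : ℂ) * Complex.I + (((k + 1 : ℕ) : ℝ) / N : ℝ) * v - ζ
              = ((1 / N : ℝ) : ℂ) * v := by
            rw [hζ, ht]; push_cast; ring
          rw [e, norm_mul, Complex.norm_real, Real.norm_of_nonneg (by positivity)]
          have h3 : 48 ≤ N * θ := by
            rw [div_le_iff₀ hθ] at hN
            exact hN
          rw [one_div, inv_mul_le_iff₀ hN0]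
          nlinarith)
      calc u ((s : ℂ) * Complex.I + (((k + 1 : ℕ) : ℝ) / N : ℝ) * v) ≤ 9 * u ζ := h2
        _ ≤ 9 * (9 ^ k * u ((s : ℂ) * Complex.I)) := by linarith
        _ = 9 ^ (k + 1) * u ((s : ℂ) * Complex.I) := by ring
  have hfin := hside N le_rfl
  have e1 : (s : ℂ) * Complex.I + ((N : ℝ) / N : ℝ) * v = z := by
    rw [div_self hN0.ne', hv]; simp
  rw [e1] at hfin
  have h9 : u z ≤ 2 * 9 ^ N * (r / ρ) ^ 8 * M := by
    calc u z ≤ 9 ^ N * u ((s : ℂ) * Complex.I) := hfin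
      _ ≤ 9 ^ N * ((r / ρ) ^ 8 * (2 * M)) := mul_le_mul_of_nonneg_left hus (by positivity)
      _ = _ := by ring
  have hzS : z ∈ Sect θ ρ r := by
    apply ball_side θ ρ r z hθ hθ1 hρ hρr hzθ hzim (by linarith)
    exact mem_ball_self (by positivity)
  have hlog : -(2 * 9 ^ N * (r / ρ) ^ 8 * M) ≤ Real.log ‖f z‖ := by
    simp only [hu] at h9
    linarith
  rw [Real.le_log_iff_exp_le (norm_pos_iff.2 (h0 z hzS))] at hlog
  exact hlog

end Pool.Agent.W778.HI.D2
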